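import Pool.Agent.H266CDb

/-!
# A non-Lindelöf T₁ space whose co-diagonal is discretely Lindelöf

Negative answer to Q1 of MP_7165d8_gt, by an example in ZFC.
-/

set_option autoImplicit false

open Set Topology

namespace Pool.Agent.Results.MP_7165d8_gt.CodiagonalCounterexample

/-- The space `Z` is discretely Lindelöf: the closure of every subset that is discrete in its
subspace topology is Lindelöf. -/
def DiscretelyLindelof (Z : Type) [TopologicalSpace Z] : Prop :=
  ∀ D : Set Z, DiscreteTopology D → IsLindelof (closure D)

/-- The co-diagonal of `X`, a subspace of the product `X × X`. -/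
abbrev CoDiagonal (X : Type) : Type := {z : X × X // z.1 ≠ z.2}

/-- There is a `T₁` space `X` that is not Lindelöf and whose co-diagonal is discretely
Lindelöf. -/
theorem result :
    ∃ (X : Type) (_ : TopologicalSpace X), T1Space X ∧
      DiscretelyLindelof (CoDiagonal X) ∧ ¬ LindelofSpace X := by
  obtain ⟨X, tX, h1, h2, h3⟩ := Pool.Agent.H266CD.exists_codiagonal
  exact ⟨X, tX, h1, h2, fun h => h3 h.isLindelof_univ⟩

end Pool.Agent.Results.MP_7165d8_gt.CodiagonalCounterexample
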